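import Pool.Agent.H25.ZMack

set_option autoImplicit false

namespace Pool.Agent.Results.MP_19adc1_gt.No

open Pool.Agent.H25.ZTop

theorem result : ¬ ∃ t : TopologicalSpace ℤ, @IsTopologicalAddGroup ℤ t _ ∧
    @TopologicalSpace.MetrizableSpace ℤ t ∧ Prec t ∧ Mackey t := by
  rintro ⟨t, h1, h2, h3, h4⟩
  exact mack (t := t) h3 h4

end Pool.Agent.Results.MP_19adc1_gt.No
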